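import Mathlib
import Pool.Agent.Q105.LorSeq
import Pool.Agent.Q105.LorLin

/-!
# A space-like limit direction that does not arise through powers

For the Lorentzian geometric Coxeter system of the triangle group `(2, 3, ∞)` (with
`B s t = -1` for the pair with `m = ∞`) we exhibit a space-like limit direction that does not
arise through the powers of any element.
-/

set_option autoImplicit false

namespace Pool.Agent.Results.MP_55c352_al.NotThroughPowers

open Filter Topology Matrix Pool.Agent.Q105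

/-- `B` is the Gram matrix of the simple roots of a geometric Coxeter system with Coxeter matrix
`M` (the entry `M i j = 0` stands for `m = ∞`). -/
structure IsGeometric {n : ℕ} (M : CoxeterMatrix (Fin n)) (B : Matrix (Fin n) (Fin n) ℝ) :
    Prop where
  symm : ∀ i j, B i j = B j i
  diag : ∀ i, B i i = 1
  finite : ∀ i j, i ≠ j → M i j ≠ 0 → B i j = -Real.cos (Real.pi / M i j)
  infinite : ∀ i j, i ≠ j → M i j = 0 → B i j ≤ -1

/-- The bilinear form with Gram matrix `B` in the basis of simple roots. -/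
def form {n : ℕ} (B : Matrix (Fin n) (Fin n) ℝ) (x y : Fin n → ℝ) : ℝ :=
  ∑ i, ∑ j, x i * B i j * y j

/-- The form has signature `(n - 1, 1)`. -/
def IsLorentzian {n : ℕ} (B : Matrix (Fin n) (Fin n) ℝ) : Prop :=
  ∃ P : Matrix (Fin n) (Fin n) ℝ, P.det ≠ 0 ∧ ∃ i₀ : Fin n,
    Pᵀ * B * P = Matrix.diagonal (fun i => if i = i₀ then -1 else 1)

/-- `ρ` is the action of the Coxeter group on `V = ℝ^n` (coordinates in the basis of simple
roots): the generator `s` acts as `v ↦ v - 2 B(α_s, v) α_s`. -/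
def IsGeometricRep {n : ℕ} (M : CoxeterMatrix (Fin n)) (B : Matrix (Fin n) (Fin n) ℝ)
    (ρ : M.Group →* Matrix (Fin n) (Fin n) ℝ) : Prop :=
  ∀ (s : Fin n) (v : Fin n → ℝ), ρ (M.simple s) *ᵥ v =
    v - (2 * form B (Pi.single s 1) v) • (Pi.single s 1 : Fin n → ℝ)

/-- The directions of the vectors `p k` are pairwise distinct. -/
def DistinctDirections {n : ℕ} (p : ℕ → Fin n → ℝ) : Prop :=
  ∀ i j, i ≠ j → ∀ c : ℝ, p i ≠ c • p j

/-- The directions of the vectors `p k` converge in the projective space to the direction of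
`x`: suitable non-zero multiples of the `p k` converge to `x`. -/
def DirectionsConverge {n : ℕ} (p : ℕ → Fin n → ℝ) (x : Fin n → ℝ) : Prop :=
  ∃ c : ℕ → ℝ, (∀ k, c k ≠ 0) ∧ Tendsto (fun k => c k • p k) atTop (𝓝 x)

/-- The direction of `x` is a limit direction. -/
def IsLimitDirection {n : ℕ} {M : CoxeterMatrix (Fin n)}
    (ρ : M.Group →* Matrix (Fin n) (Fin n) ℝ) (x : Fin n → ℝ) : Prop :=
  ∃ p : Fin n → ℝ, p ≠ 0 ∧ ∃ g : ℕ → M.Group,
    DistinctDirections (fun k => ρ (g k) *ᵥ p) ∧ DirectionsConverge (fun k => ρ (g k) *ᵥ p) x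

/-- The direction of `x` arises through powers of `w`. -/
def ArisesThroughPowers {n : ℕ} {M : CoxeterMatrix (Fin n)}
    (ρ : M.Group →* Matrix (Fin n) (Fin n) ℝ) (w : M.Group) (x : Fin n → ℝ) : Prop :=
  ∃ p : Fin n → ℝ, p ≠ 0 ∧ ∃ k : ℕ → ℤ, StrictMono k ∧
    DistinctDirections (fun j => ρ (w ^ k j) *ᵥ p) ∧
    DirectionsConverge (fun j => ρ (w ^ k j) *ᵥ p) x

/-- The assertion of the problem. -/
def EveryDirectionThroughPowers : Prop :=
  ∀ (n : ℕ) (M : CoxeterMatrix (Fin n)) (B : Matrix (Fin n) (Fin n) ℝ)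
    (ρ : M.Group →* Matrix (Fin n) (Fin n) ℝ),
    IsGeometric M B → IsLorentzian B → IsGeometricRep M B ρ →
    ∀ x : Fin n → ℝ, x ≠ 0 → 0 < form B x x → IsLimitDirection ρ x →
      ∃ w : M.Group, ¬ IsOfFinOrder w ∧ ArisesThroughPowers ρ w x

/-! ### the example -/

/-- The Coxeter matrix of the triangle group `(2, 3, ∞)`. -/
def triM : CoxeterMatrix (Fin 3) where
  M := !![1, 2, 3; 2, 1, 0; 3, 0, 1]
  isSymm := by decide
  diagonal := by decide
  off_diagonal := by decide

/-- The Gram matrix with `B s t = -1` for the pair with `m = ∞`. -/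
noncomputable def triB : Matrix (Fin 3) (Fin 3) ℝ := !![1, 0, -(1/2); 0, 1, -1; -(1/2), -1, 1]

/-- The direction. -/
noncomputable def triX : Fin 3 → ℝ := ![-2, √5 + 1, √5 - 1]

/-- twice the Gram matrix -/
def G2 : Matrix (Fin 3) (Fin 3) ℤ := !![2, 0, -1; 0, 2, -2; -1, -2, 2]

/-- the integral matrices of the generators -/
def gen : Fin 3 → Matrix (Fin 3) (Fin 3) ℤ :=
  ![!![-1, 0, 1; 0, 1, 0; 0, 0, 1], !![1, 0, 0; 0, -1, 2; 0, 0, 1], !![1, 0, 0; 0, 1, 0; 1, 2, -1]]

theorem gen_liftable : triM.IsLiftable gen := by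
  intro i j
  fin_cases i <;> fin_cases j <;> decide

/-- the integral representation -/
def rhoZ : triM.Group →* Matrix (Fin 3) (Fin 3) ℤ :=
  triM.toCoxeterSystem.lift ⟨gen, gen_liftable⟩

theorem rhoZ_simple (s : Fin 3) : rhoZ (triM.simple s) = gen s :=
  triM.toCoxeterSystem.lift_apply_simple gen_liftable s

/-- base change to the reals -/
noncomputable def toR : Matrix (Fin 3) (Fin 3) ℤ →* Matrix (Fin 3) (Fin 3) ℝ :=
  ((Int.castRingHom ℝ).mapMatrix : Matrix (Fin 3) (Fin 3) ℤ →+* Matrix (Fin 3) (Fin 3) ℝ)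

theorem toR_apply (A : Matrix (Fin 3) (Fin 3) ℤ) (i j : Fin 3) : toR A i j = (A i j : ℝ) := rfl

/-- the geometric representation -/
noncomputable def rho : triM.Group →* Matrix (Fin 3) (Fin 3) ℝ := toR.comp rhoZ

theorem rho_apply (w : triM.Group) (i j : Fin 3) : rho w i j = (rhoZ w i j : ℝ) := rfl

theorem rho_simple (s : Fin 3) : rho (triM.simple s) = toR (gen s) := by
  show toR (rhoZ (triM.simple s)) = _
  rw [rhoZ_simple]

theorem form_three (x y : Fin 3 → ℝ) : form triB x y =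
    x 0 * y 0 + x 1 * y 1 + x 2 * y 2 - (x 0 * y 2 + x 2 * y 0) / 2 - (x 1 * y 2 + x 2 * y 1) := by
  unfold form triB
  simp [Fin.sum_univ_three]
  ring

theorem geometric : IsGeometric triM triB where
  symm := by
    intro i j
    fin_cases i <;> fin_cases j <;> simp [triB]
  diag := by
    intro i
    fin_cases i <;> simp [triB]
  finite := by
    have h2 : Real.cos (Real.pi / (2 : ℕ)) = 0 := by
      rw [show ((2 : ℕ) : ℝ) = 2 by norm_num]; exact Real.cos_pi_div_two
    have h3 : Real.cos (Real.pi / (3 : ℕ)) = 1 / 2 := by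
      rw [show ((3 : ℕ) : ℝ) = 3 by norm_num]; exact Real.cos_pi_div_three
    intro i j hij hM
    fin_cases i <;> fin_cases j
    · exact absurd rfl hij
    · show (0 : ℝ) = -Real.cos (Real.pi / (2 : ℕ))
      rw [h2, neg_zero]
    · show (-(1/2) : ℝ) = -Real.cos (Real.pi / (3 : ℕ))
      rw [h3]
    · show (0 : ℝ) = -Real.cos (Real.pi / (2 : ℕ))
      rw [h2, neg_zero]
    · exact absurd rfl hij
    · exact absurd rfl hM
    · show (-(1/2) : ℝ) = -Real.cos (Real.pi / (3 : ℕ))
      rw [h3]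
    · exact absurd rfl hM
    · exact absurd rfl hij
  infinite := by
    intro i j hij hM
    fin_cases i <;> fin_cases j
    · exact absurd rfl hij
    · exact absurd hM (by decide)
    · exact absurd hM (by decide)
    · exact absurd hM (by decide)
    · exact absurd rfl hij
    · exact le_refl (-1 : ℝ)
    · exact absurd hM (by decide)
    · exact le_refl (-1 : ℝ)
    · exact absurd rfl hij

theorem lorentzian : IsLorentzian triB := by
  refine ⟨!![1, 0, 1; 0, 1, 2; 0, 0, 2], ?_, 2, ?_⟩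
  · simp [Matrix.det_fin_three]
  · ext i j
    fin_cases i <;> fin_cases j <;>
      simp [triB, Matrix.mul_apply, Fin.sum_univ_three, Matrix.diagonal]

theorem geometricRep : IsGeometricRep triM triB rho := by
  intro s v
  rw [rho_simple]
  ext i
  rw [Pi.sub_apply, Pi.smul_apply, smul_eq_mul, form_three]
  fin_cases s <;> fin_cases i <;>
    simp [Matrix.mulVec, dotProduct, Fin.sum_univ_three, toR_apply, gen] <;> ring

theorem triX_ne : triX ≠ 0 := by
  intro h
  have := congrFun h 0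
  simp [triX] at this

theorem triX_pos : 0 < form triB triX triX := by
  rw [form_three]
  have h := LorSeq.sq5
  have h2 := LorSeq.sqrt5_bd
  show 0 < (-2) * (-2) + (√5 + 1) * (√5 + 1) + (√5 - 1) * (√5 - 1) -
    ((-2) * (√5 - 1) + (√5 - 1) * (-2)) / 2 - ((√5 + 1) * (√5 - 1) + (√5 - 1) * (√5 + 1))
  nlinarith

/-! ### it is a limit direction -/

/-- the space-like vector of a geodesic with end points `a` and `b` -/
def F (a b : ℝ) : Fin 3 → ℝ := ![-2, -2 - 2 * a * b + a + b, -2 - 2 * a * b]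

theorem F_shift (a b : ℝ) :
    rho (triM.simple 1 * triM.simple 2) *ᵥ F a b = F (a - 1) (b - 1) := by
  rw [map_mul, rho_simple, rho_simple, ← Matrix.mulVec_mulVec]
  ext i
  fin_cases i <;>
    simp [F, Matrix.mulVec, dotProduct, Fin.sum_univ_three, toR_apply, gen] <;> ring

theorem F_swap (a b : ℝ) (ha : a ≠ 0) (hb : b ≠ 0) :
    rho (triM.simple 0) *ᵥ F a b = (a * b) • F (1 / a) (1 / b) := by
  rw [rho_simple]
  ext i
  fin_cases i <;>
    simp [F, Matrix.mulVec, dotProduct, Fin.sum_univ_three, toR_apply, gen] <;> field_simp <;> ring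

/-- the group element of a digit -/
def cg (d : ℕ) : triM.Group := triM.simple 0 * (triM.simple 1 * triM.simple 2) ^ d

theorem F_pow (d : ℕ) (a b : ℝ) :
    rho ((triM.simple 1 * triM.simple 2) ^ d) *ᵥ F a b = F (a - d) (b - d) := by
  induction d with
  | zero => simp
  | succ d ih =>
    rw [pow_succ', map_mul, ← Matrix.mulVec_mulVec, ih, F_shift]
    push_cast
    congr 1 <;> ring

theorem F_cg (d : ℕ) (a b : ℝ) (ha : a - d ≠ 0) (hb : b - d ≠ 0) :
    rho (cg d) *ᵥ F a b = ((a - d) * (b - d)) • F (1 / (a - d)) (1 / (b - d)) := by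
  unfold cg
  rw [map_mul, ← Matrix.mulVec_mulVec, F_pow, F_swap _ _ ha hb]

/-- the sequence of group elements -/
noncomputable def gs : ℕ → triM.Group
  | 0 => 1
  | (n + 1) => cg (LorSeq.dig n) * gs n

theorem gs_apply (β : ℕ → ℝ) (hβ : ∀ n, 1 ≤ β n ∧ β n ≤ 3)
    (hr : ∀ n, β n = LorSeq.dig n + 1 / β (n + 1)) (n : ℕ) :
    ∃ κ : ℝ, κ ≠ 0 ∧ rho (gs n) *ᵥ F 0 (β 0) = κ • F (LorSeq.al n) (β n) := by
  induction n with
  | zero =>
    refine ⟨1, one_ne_zero, ?_⟩
    rw [one_smul]
    show rho 1 *ᵥ F 0 (β 0) = F 0 (β 0)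
    rw [map_one, Matrix.one_mulVec]
  | succ n ih =>
    obtain ⟨κ, hκ, h⟩ := ih
    have h1 : (1 : ℝ) ≤ LorSeq.dig n := by
      rcases LorSeq.dig_or n with h | h <;> rw [h] <;> norm_num
    have ha : LorSeq.al n - LorSeq.dig n ≠ 0 := by
      have := LorSeq.al_bd n
      intro h0
      linarith
    have hpos : 0 < β (n + 1) := by linarith [(hβ (n + 1)).1]
    have hb' : β n - LorSeq.dig n = 1 / β (n + 1) := by rw [hr n]; ring
    have hb : β n - LorSeq.dig n ≠ 0 := by
      rw [hb']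
      positivity
    refine ⟨κ * ((LorSeq.al n - LorSeq.dig n) * (β n - LorSeq.dig n)),
      mul_ne_zero hκ (mul_ne_zero ha hb), ?_⟩
    show rho (cg (LorSeq.dig n) * gs n) *ᵥ F 0 (β 0) = _
    rw [map_mul, ← Matrix.mulVec_mulVec, h, Matrix.mulVec_smul, F_cg _ _ _ ha hb, smul_smul]
    congr 2
    rw [hb', one_div_one_div]

theorem isLimit : IsLimitDirection rho triX := by
  obtain ⟨β, hβ, hr⟩ := LorSeq.exists_beta (fun n => (LorSeq.dig n : ℝ)) (fun n => by
    rcases LorSeq.dig_or n with h | h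
    · left; rw [h]; norm_num
    · right; rw [h]; norm_num)
  choose κ hκ h using gs_apply β hβ hr
  refine ⟨F 0 (β 0), ?_, fun j => gs (3 ^ j), ?_, ?_⟩
  · intro h0
    have := congrFun h0 0
    simp [F] at this
  · -- pairwise distinct
    have key : ∀ i j : ℕ, i < j → ∀ c : ℝ, rho (gs (3 ^ i)) *ᵥ F 0 (β 0) ≠
        c • rho (gs (3 ^ j)) *ᵥ F 0 (β 0) := by
      intro i j hij c hc
      rw [h, h, smul_smul] at hc
      have h0 := congrFun hc 0
      have h1 := congrFun hc 1
      have h2 := congrFun hc 2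
      simp only [Pi.smul_apply, smul_eq_mul, F, Matrix.cons_val_zero, Matrix.cons_val_one,
        Matrix.cons_val] at h0 h1 h2
      have h3 : κ (3 ^ i) = c * κ (3 ^ j) := by linarith
      have hk := hκ (3 ^ i)
      rw [← h3] at h1 h2
      have h4 := mul_left_cancel₀ hk h1
      have h5 := mul_left_cancel₀ hk h2
      have ha1 := LorSeq.al_bd (3 ^ i)
      have ha2 := LorSeq.al_bd (3 ^ j)
      have hb1 := hβ (3 ^ i)
      have hb2 := hβ (3 ^ j)
      have h6 : (β (3 ^ i) - β (3 ^ j)) * (β (3 ^ i) - LorSeq.al (3 ^ j)) = 0 := by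
        linear_combination (β (3 ^ i)) * (h4 - h5) + h5 / 2
      rcases mul_eq_zero.mp h6 with h7 | h7
      · exact LorSeq.be_inj β hβ hr i j hij (by linarith)
      · linarith
    intro i j hij c hc
    rcases lt_or_gt_of_ne hij with hlt | hgt
    · exact key i j hlt c hc
    · by_cases hc0 : c = 0
      · have hc' : rho (gs (3 ^ i)) *ᵥ F 0 (β 0) = 0 := by
          show (fun k => rho (gs (3 ^ k)) *ᵥ F 0 (β 0)) i = 0
          rw [hc, hc0, zero_smul]
        rw [h] at hc'
        have h0 := congrFun hc' 0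
        simp only [Pi.smul_apply, smul_eq_mul, F, Matrix.cons_val_zero, Pi.zero_apply] at h0
        have := hκ (3 ^ i)
        apply this
        linarith
      · apply key j i hgt c⁻¹
        show (fun k => rho (gs (3 ^ k)) *ᵥ F 0 (β 0)) j = c⁻¹ • (fun k => rho (gs (3 ^ k)) *ᵥ F 0 (β 0)) i
        rw [hc, smul_smul, inv_mul_cancel₀ hc0, one_smul]
  · refine ⟨fun j => (κ (3 ^ j))⁻¹, fun j => inv_ne_zero (hκ _), ?_⟩
    have h1 : ∀ j : ℕ, (κ (3 ^ j))⁻¹ • rho (gs (3 ^ j)) *ᵥ F 0 (β 0) =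
        F (LorSeq.al (3 ^ j)) (β (3 ^ j)) := by
      intro j
      rw [h, smul_smul, inv_mul_cancel₀ (hκ _), one_smul]
    simp only [h1]
    have ha := LorSeq.al_tendsto
    have hb := LorSeq.be_tendsto β hβ hr
    have h5 := LorSeq.sq5
    rw [tendsto_pi_nhds]
    intro i
    have hab := ha.mul hb
    fin_cases i
    · exact tendsto_const_nhds
    · show Tendsto (fun j => -2 - 2 * LorSeq.al (3 ^ j) * β (3 ^ j) + LorSeq.al (3 ^ j) +
        β (3 ^ j)) atTop (𝓝 (√5 + 1))
      have h6 := ((tendsto_const_nhds (x := (-2 : ℝ)).sub (hab.const_mul 2)).add ha).add hb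
      have h7 : -2 - 2 * ((1 - √5) / 2 * ((3 + √5) / 2)) + (1 - √5) / 2 + (3 + √5) / 2 = √5 + 1 := by
        nlinarith
      rw [h7] at h6
      refine h6.congr (fun j => ?_)
      ring
    · show Tendsto (fun j => -2 - 2 * LorSeq.al (3 ^ j) * β (3 ^ j)) atTop (𝓝 (√5 - 1))
      have h6 := (tendsto_const_nhds (x := (-2 : ℝ)).sub (hab.const_mul 2))
      have h7 : -2 - 2 * ((1 - √5) / 2 * ((3 + √5) / 2)) = √5 - 1 := by
        nlinarith
      rw [h7] at h6
      refine h6.congr (fun j => ?_)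
      ring

/-! ### it does not arise through powers -/

theorem gen_form (s : Fin 3) : (gen s)ᵀ * G2 * gen s = G2 := by
  fin_cases s <;> decide

theorem rhoZ_form (w : triM.Group) : (rhoZ w)ᵀ * G2 * rhoZ w = G2 := by
  refine triM.toCoxeterSystem.simple_induction_left
    (p := fun w => (rhoZ w)ᵀ * G2 * rhoZ w = G2) w ?_ ?_
  · show (rhoZ 1)ᵀ * G2 * rhoZ 1 = G2
    rw [map_one, Matrix.transpose_one, Matrix.one_mul, Matrix.mul_one]
  · intro w i ih
    show (rhoZ (triM.simple i * w))ᵀ * G2 * rhoZ (triM.simple i * w) = G2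
    rw [map_mul, rhoZ_simple, Matrix.transpose_mul]
    calc (rhoZ w)ᵀ * (gen i)ᵀ * G2 * (gen i * rhoZ w)
        = (rhoZ w)ᵀ * ((gen i)ᵀ * G2 * gen i) * rhoZ w := by simp only [Matrix.mul_assoc]
      _ = G2 := by rw [gen_form, ih]

theorem cayley (A : Matrix (Fin 3) (Fin 3) ℤ) (i j : Fin 3) :
    (A * (A * A)) i j = A.trace * (A * A) i j - A.adjugate.trace * A i j +
      A.det * (1 : Matrix (Fin 3) (Fin 3) ℤ) i j := by
  rw [Matrix.det_fin_three, Matrix.adjugate_fin_three]
  simp only [Matrix.mul_apply, Fin.sum_univ_three, Matrix.trace, Matrix.diag_apply]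
  fin_cases i <;> fin_cases j <;> simp <;> ring

/-- the characteristic polynomial of an integral isometry -/
theorem charpoly_isometry (A : Matrix (Fin 3) (Fin 3) ℤ) (hA : Aᵀ * G2 * A = G2) :
    (A.det = 1 ∨ A.det = -1) ∧ ∀ i j,
      (A * (A * A)) i j = A.trace * (A * A) i j - A.det * A.trace * A i j +
        A.det * (1 : Matrix (Fin 3) (Fin 3) ℤ) i j := by
  have hdet : A.det * A.det = 1 := by
    have h1 := congrArg Matrix.det hA
    rw [Matrix.det_mul, Matrix.det_mul, Matrix.det_transpose] at h1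
    have h2 : G2.det = -2 := by simp [G2, Matrix.det_fin_three]
    rw [h2] at h1
    linarith
  have hadj : A.adjugate.trace = A.det * A.trace := by
    -- multiply with the inverse of the Gram matrix
    let H : Matrix (Fin 3) (Fin 3) ℤ := G2.adjugate
    have hH : H * G2 = (-2 : ℤ) • (1 : Matrix (Fin 3) (Fin 3) ℤ) := by
      have h2 : G2.det = -2 := by simp [G2, Matrix.det_fin_three]
      rw [← h2]
      exact Matrix.adjugate_mul G2
    have hH' : G2 * H = (-2 : ℤ) • (1 : Matrix (Fin 3) (Fin 3) ℤ) := by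
      have h2 : G2.det = -2 := by simp [G2, Matrix.det_fin_three]
      rw [← h2]
      exact Matrix.mul_adjugate G2
    have h3 : Aᵀ * G2 * (A.det • (1 : Matrix (Fin 3) (Fin 3) ℤ)) = G2 * A.adjugate := by
      rw [← Matrix.mul_adjugate A, ← Matrix.mul_assoc, hA]
    have h4 : (-2 : ℤ) • A.adjugate = A.det • (H * (Aᵀ * G2)) := by
      calc (-2 : ℤ) • A.adjugate = (H * G2) * A.adjugate := by
            rw [hH, Matrix.smul_mul, Matrix.one_mul]
        _ = H * (G2 * A.adjugate) := by rw [Matrix.mul_assoc]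
        _ = H * (Aᵀ * G2 * (A.det • (1 : Matrix (Fin 3) (Fin 3) ℤ))) := by rw [h3]
        _ = A.det • (H * (Aᵀ * G2)) := by
            rw [Matrix.mul_smul, Matrix.mul_one, Matrix.mul_smul]
    have h5 := congrArg Matrix.trace h4
    rw [Matrix.trace_smul, Matrix.trace_smul, Matrix.trace_mul_comm, Matrix.mul_assoc, hH',
      Matrix.mul_smul, Matrix.mul_one, Matrix.trace_smul, Matrix.trace_transpose] at h5
    simp only [smul_eq_mul] at h5
    linarith
  refine ⟨?_, ?_⟩
  · have h1 : (A.det - 1) * (A.det + 1) = 0 := by linarith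
    rcases mul_eq_zero.mp h1 with h | h
    · left; linarith
    · right; linarith
  · intro i j
    rw [← hadj]
    exact cayley A i j

theorem irr5 (a b : ℤ) (h : (a : ℝ) * √5 + b = 0) : a = 0 ∧ b = 0 := by
  have hirr : Irrational (√5) := Nat.Prime.irrational_sqrt (p := 5) (by norm_num)
  have ha : a = 0 := by
    by_contra hne
    have h1 : √5 = ((-b / a : ℚ) : ℝ) := by
      have h2 : (a : ℝ) ≠ 0 := by exact_mod_cast hne
      push_cast
      field_simp
      linarith
    exact hirr.ne_rat _ h1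
  subst ha
  refine ⟨rfl, ?_⟩
  simpa using h

/-- An integral isometry that fixes the direction of `triX` is parabolic or of finite order. -/
theorem not_fixed (A : Matrix (Fin 3) (Fin 3) ℤ) (hdet : A.det = 1 ∨ A.det = -1)
    (h : ∀ i, (toR A *ᵥ triX) i = (A.det : ℝ) * triX i) : ¬ 3 ≤ |A.trace - A.det| := by
  have h0 := h 0
  have h1 := h 1
  have h2 := h 2
  simp only [Matrix.mulVec, dotProduct, Fin.sum_univ_three, toR_apply, triX,
    Matrix.cons_val_zero, Matrix.cons_val_one, Matrix.cons_val] at h0 h1 h2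
  set ε := A.det with hε
  obtain ⟨a1, a2⟩ := irr5 (A 0 1 + A 0 2) (-2 * A 0 0 + A 0 1 - A 0 2 + 2 * ε) (by
    push_cast
    linarith)
  obtain ⟨b1, b2⟩ := irr5 (A 1 1 + A 1 2 - ε) (-2 * A 1 0 + A 1 1 - A 1 2 - ε) (by
    push_cast
    linarith)
  obtain ⟨c1, c2⟩ := irr5 (A 2 1 + A 2 2 - ε) (-2 * A 2 0 + A 2 1 - A 2 2 + ε) (by
    push_cast
    linarith)
  have e1 : A 0 2 = - A 0 1 := by linarith
  have e2 : A 0 0 = ε + A 0 1 := by linarith
  have e3 : A 1 2 = ε - A 1 1 := by linarith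
  have e4 : A 1 0 = A 1 1 - ε := by linarith
  have e5 : A 2 2 = ε - A 2 1 := by linarith
  have e6 : A 2 0 = A 2 1 := by linarith
  have hd : ε = A 0 0 * A 1 1 * A 2 2 - A 0 0 * A 1 2 * A 2 1 - A 0 1 * A 1 0 * A 2 2 +
      A 0 1 * A 1 2 * A 2 0 + A 0 2 * A 1 0 * A 2 1 - A 0 2 * A 1 1 * A 2 0 := by
    conv_lhs => rw [hε, Matrix.det_fin_three]
  rw [e1, e2, e3, e4, e5, e6] at hd
  have htr : A.trace = A 0 0 + A 1 1 + A 2 2 := by
    simp [Matrix.trace, Fin.sum_univ_three]
  rw [htr, e2, e5]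
  have hε2 : ε * ε = 1 := by rcases hdet with h | h <;> rw [h] <;> norm_num
  have hs : A 0 1 + A 1 1 - ε - A 2 1 = 0 := by
    have : ε = ε * (ε * ε) + (ε * ε) * (A 0 1 + A 1 1 - ε - A 2 1) := by
      linear_combination hd
    rw [hε2] at this
    linarith
  have hfin : ε + A 0 1 + A 1 1 + (ε - A 2 1) - ε = 2 * ε := by linarith
  rw [hfin]
  rcases hdet with h | h <;> rw [h] <;> norm_num

theorem form_invariant (w : triM.Group) (v : Fin 3 → ℝ) :
    form triB (rho w *ᵥ v) (rho w *ᵥ v) = form triB v v := by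
  have h := rhoZ_form w
  have key : ∀ i j : Fin 3, (((rhoZ w)ᵀ * G2 * rhoZ w) i j : ℝ) = (G2 i j : ℝ) := by
    intro i j
    rw [h]
  have h00 := key 0 0
  have h01 := key 0 1
  have h02 := key 0 2
  have h11 := key 1 1
  have h12 := key 1 2
  have h22 := key 2 2
  simp only [Matrix.mul_apply, Fin.sum_univ_three, Matrix.transpose_apply, G2, Matrix.of_apply,
    Matrix.cons_val', Matrix.cons_val_zero, Matrix.cons_val_one, Matrix.cons_val,
    Matrix.cons_val_fin_one] at h00 h01 h02 h11 h12 h22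
  push_cast at h00 h01 h02 h11 h12 h22
  rw [form_three, form_three]
  simp only [Matrix.mulVec, dotProduct, Fin.sum_univ_three, rho_apply]
  linear_combination (v 0 * v 0 / 2) * h00 + (v 0 * v 1) * h01 + (v 0 * v 2) * h02 +
    (v 1 * v 1 / 2) * h11 + (v 1 * v 2) * h12 + (v 2 * v 2 / 2) * h22

theorem bdd_of (u : ℕ → Fin 3 → ℝ) (c : ℕ → ℝ) (hc : ∀ j, c j ≠ 0) (L : Fin 3 → ℝ) (κ : ℝ)
    (hcu : Tendsto (fun j => c j • u j) atTop (𝓝 L))
    (hci : Tendsto (fun j => ((c j) ^ 2)⁻¹) atTop (𝓝 κ)) : ∃ C : ℝ, ∀ j i, |u j i| ≤ C := by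
  have h1 : ∀ i : Fin 3, ∃ C : ℝ, 0 ≤ C ∧ ∀ j, |u j i| ≤ C := by
    intro i
    have h2 : Tendsto (fun j => (c j • u j) i) atTop (𝓝 (L i)) :=
      (continuous_apply i).continuousAt.tendsto.comp hcu
    have h3 := (h2.pow 2).mul hci
    obtain ⟨C, hC⟩ := h3.bddAbove_range
    refine ⟨|C| + 1, by positivity, fun j => ?_⟩
    have h4 : (c j • u j) i ^ 2 * ((c j) ^ 2)⁻¹ ≤ C := hC ⟨j, rfl⟩
    have h5 : (c j • u j) i ^ 2 * ((c j) ^ 2)⁻¹ = (u j i) ^ 2 := by
      have := hc j
      rw [Pi.smul_apply, smul_eq_mul]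
      field_simp
    rw [h5] at h4
    have h6 : |u j i| ≤ (u j i) ^ 2 + 1 := by
      rw [← sq_abs]
      nlinarith [sq_nonneg (|u j i| - 1), abs_nonneg (u j i)]
    have := le_abs_self C
    linarith
  choose C hC0 hC using h1
  refine ⟨C 0 + C 1 + C 2, fun j i => ?_⟩
  have h0 := hC i j
  have := hC0 0
  have := hC0 1
  have := hC0 2
  fin_cases i
  · exact h0.trans (by show C 0 ≤ _; linarith)
  · exact h0.trans (by show C 1 ≤ _; linarith)
  · exact h0.trans (by show C 2 ≤ _; linarith)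

theorem one_sum (v : Fin 3 → ℝ) (i : Fin 3) :
    (((1 : Matrix (Fin 3) (Fin 3) ℤ) i 0 : ℤ) : ℝ) * v 0 +
        (((1 : Matrix (Fin 3) (Fin 3) ℤ) i 1 : ℤ) : ℝ) * v 1 +
        (((1 : Matrix (Fin 3) (Fin 3) ℤ) i 2 : ℤ) : ℝ) * v 2 = v i := by
  fin_cases i <;> simp [Matrix.one_apply]

theorem not_through (w : triM.Group) : ¬ ArisesThroughPowers rho w triX := by
  rintro ⟨p, hp, k, hk, hd, c, hc, hlim⟩
  set A := rhoZ w with hA
  obtain ⟨hdet, hch⟩ := charpoly_isometry A (rhoZ_form w)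
  obtain ⟨y, hy⟩ : ∃ y : ℕ → Fin 3 → ℝ, ∀ n, y n = rho (w ^ (k 0 + (n : ℤ))) *ᵥ p := ⟨_, fun _ => rfl⟩
  have hAw : toR A = rho w := rfl
  have hy1 : ∀ n, y (n + 1) = toR A *ᵥ y n := by
    intro n
    rw [hy, hy, hAw, Matrix.mulVec_mulVec, ← map_mul, ← _root_.zpow_one_add]
    congr 3
    push_cast
    ring
  have hsum : ∀ n, form triB (y n) (y n) = form triB p p := by
    intro n
    rw [hy, form_invariant]
  have hrec : ∀ (v : Fin 3 → ℝ) (i : Fin 3), (toR A *ᵥ (toR A *ᵥ (toR A *ᵥ v))) i =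
      (A.trace : ℝ) * (toR A *ᵥ (toR A *ᵥ v)) i - (A.det : ℝ) * A.trace * (toR A *ᵥ v) i +
        (A.det : ℝ) * v i := by
    intro v i
    have hA1 : toR A *ᵥ (toR A *ᵥ v) = toR (A * A) *ᵥ v := by
      rw [Matrix.mulVec_mulVec, ← map_mul]
    rw [hA1, Matrix.mulVec_mulVec, ← map_mul]
    have h0 : (((A * (A * A)) i 0 : ℤ) : ℝ) = ((A.trace * (A * A) i 0 - A.det * A.trace * A i 0 +
        A.det * (1 : Matrix (Fin 3) (Fin 3) ℤ) i 0 : ℤ) : ℝ) := by rw [hch i 0]
    have h1 : (((A * (A * A)) i 1 : ℤ) : ℝ) = ((A.trace * (A * A) i 1 - A.det * A.trace * A i 1 +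
        A.det * (1 : Matrix (Fin 3) (Fin 3) ℤ) i 1 : ℤ) : ℝ) := by rw [hch i 1]
    have h2 : (((A * (A * A)) i 2 : ℤ) : ℝ) = ((A.trace * (A * A) i 2 - A.det * A.trace * A i 2 +
        A.det * (1 : Matrix (Fin 3) (Fin 3) ℤ) i 2 : ℤ) : ℝ) := by rw [hch i 2]
    have h3 : (A.det : ℝ) * v i = (A.det : ℝ) * ((((1 : Matrix (Fin 3) (Fin 3) ℤ) i 0 : ℤ) : ℝ) * v 0 +
        (((1 : Matrix (Fin 3) (Fin 3) ℤ) i 1 : ℤ) : ℝ) * v 1 +
        (((1 : Matrix (Fin 3) (Fin 3) ℤ) i 2 : ℤ) : ℝ) * v 2) := by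
      rw [one_sum]
    simp only [Matrix.mulVec, dotProduct, Fin.sum_univ_three, toR_apply]
    rw [h0, h1, h2, h3]
    push_cast
    ring
  obtain ⟨m, hm0⟩ : ∃ m : ℕ → ℕ, ∀ j, ((m j : ℕ) : ℤ) = k j - k 0 :=
    ⟨fun j => (k j - k 0).toNat, fun j => Int.toNat_of_nonneg
      (sub_nonneg.2 (hk.monotone (Nat.zero_le j)))⟩
  have hm : StrictMono m := by
    intro i j hij
    have h1 := hk hij
    have h2 := hm0 i
    have h3 := hm0 j
    omega
  have hym : ∀ j, y (m j) = rho (w ^ k j) *ᵥ p := by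
    intro j
    rw [hy, hm0]
    congr 3
    ring
  have hlim' : Tendsto (fun j => c j • y (m j)) atTop (𝓝 triX) := by
    simp only [hym]
    exact hlim
  -- the scalars
  have hform : Continuous (fun v : Fin 3 → ℝ => form triB v v) := by
    have : (fun v : Fin 3 → ℝ => form triB v v) = fun v => v 0 * v 0 + v 1 * v 1 + v 2 * v 2 -
        (v 0 * v 2 + v 2 * v 0) / 2 - (v 1 * v 2 + v 2 * v 1) := by
      ext v
      rw [form_three]
    rw [this]
    fun_prop
  have hsm : ∀ (a : ℝ) (v : Fin 3 → ℝ), form triB (a • v) (a • v) = a ^ 2 * form triB v v := by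
    intro a v
    rw [form_three, form_three]
    simp only [Pi.smul_apply, smul_eq_mul]
    ring
  have hr := triX_pos
  have hcs : Tendsto (fun j => (c j) ^ 2 * form triB p p) atTop (𝓝 (form triB triX triX)) := by
    have h1 := (hform.tendsto triX).comp hlim'
    refine h1.congr (fun j => ?_)
    show form triB (c j • y (m j)) (c j • y (m j)) = _
    rw [hsm, hsum]
  have hs0 : form triB p p ≠ 0 := by
    intro h0
    rw [h0] at hcs
    simp only [mul_zero] at hcs
    have := tendsto_nhds_unique hcs tendsto_const_nhds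
    linarith
  have hc2 : Tendsto (fun j => (c j) ^ 2) atTop (𝓝 (form triB triX triX / form triB p p)) := by
    refine (hcs.div_const (form triB p p)).congr (fun j => ?_)
    field_simp
  have hci := hc2.inv₀ (div_ne_zero hr.ne' hs0)
  obtain ⟨C1, hC1⟩ := bdd_of (fun j => y (m j)) c hc triX _ hlim' hci
  have hlimA : Tendsto (fun j => c j • (fun i => y (m j + 1) i - (A.det : ℝ) * y (m j) i)) atTop
      (𝓝 (toR A *ᵥ triX - (A.det : ℝ) • triX)) := by
    have h1 : Continuous (fun v : Fin 3 → ℝ => toR A *ᵥ v - (A.det : ℝ) • v) :=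
      (continuous_const.matrix_mulVec continuous_id).sub (continuous_const_smul _)
    refine ((h1.tendsto triX).comp hlim').congr (fun j => ?_)
    show toR A *ᵥ (c j • y (m j)) - (A.det : ℝ) • (c j • y (m j)) = _
    rw [Matrix.mulVec_smul, ← hy1]
    ext i
    simp only [Pi.sub_apply, Pi.smul_apply, smul_eq_mul]
    ring
  obtain ⟨C2, hC2⟩ := bdd_of (fun j i => y (m j + 1) i - (A.det : ℝ) * y (m j) i) c hc _ _ hlimA hci
  obtain ⟨h3, hu⟩ := LorLin.tri A.det A.trace hdet y
    (by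
      intro n i
      rw [show n + 3 = n + 2 + 1 by ring, hy1 (n + 2), show n + 2 = n + 1 + 1 by ring, hy1 (n + 1),
        hy1 n]
      exact hrec (y n) i)
    m hm (C1 + C2)
    (fun j i => by
      have h1 := hC1 j i
      have h2 := (abs_nonneg _).trans (hC2 j i)
      linarith)
    (fun j i => by
      have h1 := hC2 j i
      have h2 := (abs_nonneg _).trans (hC1 j i)
      linarith)
    (fun i j hij a => by
      rw [hym, hym]
      exact hd i j hij a)
  apply not_fixed A hdet _ h3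
  intro i
  have h4 : Tendsto (fun j => (c j • (fun i => y (m j + 1) i - (A.det : ℝ) * y (m j) i)) i) atTop
      (𝓝 ((toR A *ᵥ triX - (A.det : ℝ) • triX) i)) :=
    (continuous_apply i).continuousAt.tendsto.comp hlimA
  have h5 : Tendsto (fun j => (c j) ^ 2 * (y (m j + 1) i - (A.det : ℝ) * y (m j) i) ^ 2) atTop
      (𝓝 (form triB triX triX / form triB p p * 0 ^ 2)) :=
    hc2.mul (((hu i).comp hm.tendsto_atTop).pow 2)
  have h6 := h4.pow 2
  have h7 : ((toR A *ᵥ triX - (A.det : ℝ) • triX) i) ^ 2 =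
      form triB triX triX / form triB p p * 0 ^ 2 := by
    refine tendsto_nhds_unique h6 (h5.congr (fun j => ?_))
    rw [Pi.smul_apply, smul_eq_mul]
    ring
  have h8 : (toR A *ᵥ triX - (A.det : ℝ) • triX) i = 0 := by
    have : ((toR A *ᵥ triX - (A.det : ℝ) • triX) i) ^ 2 = 0 := by rw [h7]; ring
    exact pow_eq_zero_iff (two_ne_zero) |>.mp this
  rw [Pi.sub_apply, Pi.smul_apply, smul_eq_mul] at h8
  linarith

/-- **The answer is no.** For the Lorentzian geometric Coxeter system of rank three with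
`m = 2, 3, ∞` and `B = -1` for the pair with `m = ∞`, the direction of
`(-2, √5 + 1, √5 - 1)` is a space-like limit direction that arises through the powers of no
element of the group. In particular the assertion of the problem is false. -/
theorem result :
    (IsGeometric triM triB ∧ IsLorentzian triB ∧ IsGeometricRep triM triB rho ∧ triX ≠ 0 ∧
      0 < form triB triX triX ∧ IsLimitDirection rho triX ∧
      ∀ w : triM.Group, ¬ ArisesThroughPowers rho w triX) ∧
    ¬ EveryDirectionThroughPowers := by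
  refine ⟨⟨geometric, lorentzian, geometricRep, triX_ne, triX_pos, isLimit, not_through⟩, ?_⟩
  intro h
  obtain ⟨w, _, hw⟩ := h 3 triM triB rho geometric lorentzian geometricRep triX triX_ne triX_pos
    isLimit
  exact not_through w hw

end Pool.Agent.Results.MP_55c352_al.NotThroughPowers
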